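import Mathlib

/-!
A uniformly recurrent, aperiodic, non-Sturmian binary word whose abelian closure has entropy zero.
The word is a Sturmian word of slope 1/sqrt 2 interleaved with zeros.
-/

open Filter Topology

namespace Pool.Agent.Results.MP_1706f7_co.ZeroEntropy

/-- The set of factors of length `n` of the one-sided infinite binary word `x`. -/
def factors (x : ℕ → Fin 2) (n : ℕ) : Set (Fin n → Fin 2) :=
  {w | ∃ i : ℕ, ∀ j : Fin n, w j = x (i + j)}

/-- The number of letters 1 in a finite binary word. -/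
def ones {n : ℕ} (w : Fin n → Fin 2) : ℕ :=
  (Finset.univ.filter (fun j => w j = 1)).card

/-- Every factor occurs in every window of some bounded size. -/
def UniformlyRecurrent (x : ℕ → Fin 2) : Prop :=
  ∀ n : ℕ, ∀ w ∈ factors x n, ∃ B : ℕ, ∀ i : ℕ, ∃ k : ℕ, i ≤ k ∧ k ≤ i + B ∧
    ∀ j : Fin n, w j = x (k + j)

/-- Not eventually periodic. -/
def Aperiodic (x : ℕ → Fin 2) : Prop :=
  ¬ ∃ p N : ℕ, 0 < p ∧ ∀ n : ℕ, N ≤ n → x (n + p) = x n

/-- Aperiodic with exactly `n + 1` factors of each length `n`. -/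
def Sturmian (x : ℕ → Fin 2) : Prop :=
  Aperiodic x ∧ ∀ n : ℕ, (factors x n).ncard = n + 1

/-- The words all of whose factors are abelian equivalent to a factor of `x`. -/
def abelianClosure (x : ℕ → Fin 2) : Set (ℕ → Fin 2) :=
  {y | ∀ n : ℕ, ∀ v ∈ factors y n, ∃ u ∈ factors x n, ones v = ones u}

/-- The blocks of length `n` occurring in some element of `X`. -/
def blocks (X : Set (ℕ → Fin 2)) (n : ℕ) : Set (Fin n → Fin 2) :=
  {w | ∃ y ∈ X, w ∈ factors y n}

/-! ### The example -/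

noncomputable def gam : ℝ := Real.sqrt 2 / 2

lemma gam_irr : Irrational gam := by
  have := irrational_sqrt_two.div_natCast (m := 2) (by norm_num)
  simpa [gam] using this

lemma gam_lb : (0.7 : ℝ) < gam := by
  have : (1.4 : ℝ) < Real.sqrt 2 := Real.lt_sqrt_of_sq_lt (by norm_num)
  unfold gam; linarith

lemma gam_ub : gam < (0.71 : ℝ) := by
  have : Real.sqrt 2 < (1.42 : ℝ) := (Real.sqrt_lt' (by norm_num)).2 (by norm_num)
  unfold gam; linarith

/-- prefix sums of the example -/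
noncomputable def Q (n : ℕ) : ℤ := ⌊(((n + 1) / 2 : ℕ) : ℝ) * gam⌋

noncomputable def xw (n : ℕ) : Fin 2 := if Q (n + 1) - Q n = 1 then 1 else 0

lemma Q_step (n : ℕ) : Q (n + 1) - Q n = 0 ∨ Q (n + 1) - Q n = 1 := by
  rcases Nat.even_or_odd' n with ⟨k, rfl | rfl⟩
  · have h1 : (2 * k + 1 + 1) / 2 = k + 1 := by omega
    have h2 : (2 * k + 1) / 2 = k := by omega
    unfold Q
    rw [h1, h2]
    have a1 := Int.floor_le (((k + 1 : ℕ) : ℝ) * gam)
    have a2 := Int.lt_floor_add_one (((k + 1 : ℕ) : ℝ) * gam)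
    have a3 := Int.floor_le (((k : ℕ) : ℝ) * gam)
    have a4 := Int.lt_floor_add_one (((k : ℕ) : ℝ) * gam)
    have hl := gam_lb
    have hu := gam_ub
    set A := ⌊((k + 1 : ℕ) : ℝ) * gam⌋
    set B := ⌊((k : ℕ) : ℝ) * gam⌋
    push_cast at a1 a2
    have b1 : ((A - B : ℤ) : ℝ) < 2 := by push_cast; nlinarith
    have b2 : (-1 : ℝ) < ((A - B : ℤ) : ℝ) := by push_cast; nlinarith
    have c1 : A - B < 2 := by exact_mod_cast b1
    have c2 : -1 < A - B := by exact_mod_cast b2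
    omega
  · left
    have h1 : (2 * k + 1 + 1 + 1) / 2 = k + 1 := by omega
    have h2 : (2 * k + 1 + 1) / 2 = k + 1 := by omega
    unfold Q
    rw [h1, h2]; simp

/-- integer value of a letter -/
def val (a : Fin 2) : ℤ := if a = 1 then 1 else 0

lemma val_xw (n : ℕ) : val (xw n) = Q (n + 1) - Q n := by
  unfold val xw
  rcases Q_step n with h | h <;> simp [h]

/-- prefix sums of an arbitrary word -/
def pre (y : ℕ → Fin 2) (n : ℕ) : ℤ := ∑ j ∈ Finset.range n, val (y j)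

lemma pre_succ (y : ℕ → Fin 2) (n : ℕ) : pre y (n + 1) = pre y n + val (y n) := by
  simp [pre, Finset.sum_range_succ]

lemma pre_add (y : ℕ → Fin 2) (i n : ℕ) :
    pre y (i + n) - pre y i = ∑ j ∈ Finset.range n, val (y (i + j)) := by
  simp [pre, Finset.sum_range_add]

lemma ones_eq {n : ℕ} (y : ℕ → Fin 2) (i : ℕ) (w : Fin n → Fin 2)
    (h : ∀ j : Fin n, w j = y (i + j)) : (ones w : ℤ) = pre y (i + n) - pre y i := by
  rw [pre_add, ones, Finset.card_filter, ← Fin.sum_univ_eq_sum_range (fun j => val (y (i + j))) n]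
  push_cast
  refine Finset.sum_congr rfl fun j _ => ?_
  rw [h j]; rfl

lemma pre_xw (n : ℕ) : pre xw n = Q n := by
  induction n with
  | zero => simp [pre, Q]
  | succ n ih => rw [pre_succ, ih, val_xw]; ring

lemma Q_even (i m : ℕ) : |((Q (i + 2 * m) - Q i : ℤ) : ℝ) - m * gam| < 1 := by
  have h1 : (i + 2 * m + 1) / 2 = (i + 1) / 2 + m := by omega
  unfold Q
  rw [h1]
  set k := (i + 1) / 2
  have a1 := Int.floor_le (((k + m : ℕ) : ℝ) * gam)
  have a2 := Int.lt_floor_add_one (((k + m : ℕ) : ℝ) * gam)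
  have a3 := Int.floor_le (((k : ℕ) : ℝ) * gam)
  have a4 := Int.lt_floor_add_one (((k : ℕ) : ℝ) * gam)
  set A := ⌊((k + m : ℕ) : ℝ) * gam⌋
  set B := ⌊((k : ℕ) : ℝ) * gam⌋
  push_cast at a1 a2 ⊢
  rw [abs_lt]; constructor <;> nlinarith

/-! ### Aperiodicity -/

lemma aperiodic_xw : Aperiodic xw := by
  rintro ⟨p, N, hp, h⟩
  have h1 : ∀ n, N ≤ n → Q (n + p) - Q n = Q (N + p) - Q N := by
    intro n hn
    induction n, hn using Nat.le_induction with
    | base => rfl
    | succ n hn ih =>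
      have e1 := val_xw n
      have e2 := val_xw (n + p)
      rw [h n hn] at e2
      have : n + 1 + p = n + p + 1 := by ring
      rw [this]; omega
  set c := Q (N + p) - Q N with hc
  have h2 : ∀ t : ℕ, Q (N + t * p) - Q N = t * c := by
    intro t
    induction t with
    | zero => simp
    | succ t ih =>
      have := h1 (N + t * p) (by omega)
      have e : N + (t + 1) * p = N + t * p + p := by ring
      rw [e]; push_cast; linarith
  have h3 : ∀ t : ℕ, (t : ℝ) * |2 * (c : ℝ) - p * gam| < 1 := by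
    intro t
    have a := Q_even N (t * p)
    have e : N + 2 * (t * p) = N + (2 * t) * p := by ring
    rw [e, h2] at a
    push_cast at a
    have : (2 * (t : ℝ) * c - t * p * gam) = t * (2 * c - p * gam) := by ring
    rw [this, abs_mul, abs_of_nonneg (Nat.cast_nonneg t)] at a
    exact a
  have h4 : 2 * (c : ℝ) - p * gam = 0 := by
    by_contra hne
    have hpos : 0 < |2 * (c : ℝ) - p * gam| := abs_pos.2 hne
    obtain ⟨t, ht⟩ := exists_nat_gt (1 / |2 * (c : ℝ) - p * gam|)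
    have := h3 t
    rw [div_lt_iff₀ hpos] at ht
    linarith
  have h5 : Irrational ((p : ℝ) * gam) := gam_irr.natCast_mul (by omega)
  apply h5
  refine ⟨(2 * c : ℤ), ?_⟩
  push_cast; linarith

/-! ### Uniform recurrence -/

lemma syndetic (θ ε : ℝ) (hε : 0 < ε) :
    ∃ B : ℕ, ∀ i : ℕ, ∃ j : ℕ, ∃ z : ℤ, i ≤ j ∧ j ≤ i + B ∧
      0 ≤ j * gam - z - θ ∧ j * gam - z - θ < ε := by
  obtain ⟨n, hn⟩ := exists_nat_gt (1 / ε)
  have hn0 : 0 < n := by
    have : (0 : ℝ) < n := lt_trans (by positivity) hn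
    exact_mod_cast this
  obtain ⟨q, hq0, -, hq⟩ := Real.exists_nat_abs_mul_sub_round_le gam hn0
  set p := round ((q : ℝ) * gam)
  set δ := (q : ℝ) * gam - p with hδ
  have hδε : |δ| < ε := by
    refine lt_of_le_of_lt hq ?_
    rw [div_lt_iff₀ hε] at hn
    rw [div_lt_iff₀ (by positivity)]
    nlinarith
  have hδ0 : δ ≠ 0 := by
    intro h0
    have h5 : Irrational ((q : ℝ) * gam) := gam_irr.natCast_mul (by omega)
    apply h5
    refine ⟨(p : ℤ), ?_⟩
    push_cast; linarith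
  rcases lt_or_gt_of_ne hδ0 with hneg | hpos
  · set η := -δ with hη
    have hη0 : 0 < η := by linarith
    rw [abs_of_neg hneg] at hδε
    refine ⟨⌊1 / η⌋₊ * q, fun i => ?_⟩
    set r := (i : ℝ) * gam - θ with hr
    have f1 := Int.floor_le r
    have f2 := Int.lt_floor_add_one r
    set t := ⌊(r - ⌊r⌋) / η⌋₊ with ht
    have t1 : (t : ℝ) ≤ (r - ⌊r⌋) / η := Nat.floor_le (div_nonneg (by linarith) hη0.le)
    have t2 : (r - ⌊r⌋) / η < t + 1 := Nat.lt_floor_add_one _
    have t3 : t ≤ ⌊1 / η⌋₊ := Nat.floor_le_floor (by gcongr; linarith)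
    rw [le_div_iff₀ hη0] at t1
    rw [div_lt_iff₀ hη0] at t2
    refine ⟨i + t * q, ⌊r⌋ + t * p, by omega, by nlinarith, ?_, ?_⟩
    · push_cast; nlinarith
    · push_cast; nlinarith
  · rw [abs_of_pos hpos] at hδε
    refine ⟨⌈1 / δ⌉₊ * q, fun i => ?_⟩
    set r := (i : ℝ) * gam - θ with hr
    have f1 := Int.le_ceil r
    have f2 := Int.ceil_lt_add_one r
    set t := ⌈(⌈r⌉ - r) / δ⌉₊ with ht
    have t1 : (⌈r⌉ - r) / δ ≤ (t : ℝ) := Nat.le_ceil _
    have t2 : (t : ℝ) < (⌈r⌉ - r) / δ + 1 := Nat.ceil_lt_add_one (div_nonneg (by linarith) hpos.le)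
    have t3 : t ≤ ⌈1 / δ⌉₊ := Nat.ceil_le_ceil (by gcongr; linarith)
    rw [div_le_iff₀ hpos] at t1
    have t4 : (t : ℝ) * δ < (⌈r⌉ - r) + δ := by
      have := mul_lt_mul_of_pos_right t2 hpos
      rwa [add_mul, div_mul_cancel₀ _ hpos.ne', one_mul] at this
    refine ⟨i + t * q, ⌈r⌉ + t * p, by omega, by nlinarith, ?_, ?_⟩
    · push_cast; nlinarith
    · push_cast; nlinarith

lemma floor_stable (a : ℕ → ℝ) (m : ℕ) :
    ∃ ε : ℝ, 0 < ε ∧ ∀ e : ℝ, 0 ≤ e → e < ε → ∀ k ≤ m, ⌊a k + e⌋ = ⌊a k⌋ := by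
  have key : ∀ k, ∃ ε : ℝ, 0 < ε ∧ ∀ e : ℝ, 0 ≤ e → e < ε → ⌊a k + e⌋ = ⌊a k⌋ := by
    intro k
    have f1 := Int.floor_le (a k)
    have f2 := Int.lt_floor_add_one (a k)
    refine ⟨⌊a k⌋ + 1 - a k, by linarith, fun e h0 h1 => ?_⟩
    rw [Int.floor_eq_iff]; constructor <;> linarith
  induction m with
  | zero =>
    obtain ⟨ε, h0, h⟩ := key 0
    refine ⟨ε, h0, fun e a b k hk => ?_⟩
    obtain rfl : k = 0 := by omega
    exact h e a b
  | succ m ih =>
    obtain ⟨ε, h0, h⟩ := key (m + 1)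
    obtain ⟨ε', h0', h'⟩ := ih
    refine ⟨min ε ε', lt_min h0 h0', fun e a b k hk => ?_⟩
    rcases Nat.lt_or_ge k (m + 1) with hlt | hge
    · exact h' e a (lt_of_lt_of_le b (min_le_right _ _)) k (by omega)
    · obtain rfl : k = m + 1 := by omega
      exact h e a (lt_of_lt_of_le b (min_le_left _ _))

lemma uniformlyRecurrent_xw : UniformlyRecurrent xw := by
  rintro n w ⟨i, hi⟩
  obtain ⟨ε, hε, hst⟩ := floor_stable (fun k => (k : ℝ) * gam) (i + n + 1)
  obtain ⟨B, hB⟩ := syndetic 0 ε hε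
  refine ⟨2 * B + i + 2, fun l => ?_⟩
  obtain ⟨j, z, h1, h2, h3, h4⟩ := hB ((l + 1) / 2)
  have hQ : ∀ u ≤ i + n + 1, Q (2 * j + u) = Q u + z := by
    intro u hu
    have e1 : (2 * j + u + 1) / 2 = (u + 1) / 2 + j := by omega
    have := hst (j * gam - z - 0) h3 h4 ((u + 1) / 2) (by omega)
    unfold Q
    rw [e1, ← this, ← Int.floor_add_intCast]
    congr 1
    push_cast; ring
  refine ⟨2 * j + i, by omega, by omega, fun k => ?_⟩
  rw [hi k]
  have hk := k.2
  unfold xw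
  have a1 := hQ (i + k) (by omega)
  have a2 := hQ (i + k + 1) (by omega)
  have e1 : 2 * j + i + k = 2 * j + (i + k) := by ring
  have e2 : 2 * j + (i + k) + 1 = 2 * j + (i + k + 1) := by ring
  rw [e1, e2, a1, a2]
  have : Q (i + k + 1) + z - (Q (i + k) + z) = Q (i + k + 1) - Q (i + k) := by ring
  rw [this]

/-! ### Not Sturmian -/

lemma fl (k : ℕ) (z : ℤ) (h1 : (z : ℝ) ≤ k * 0.7) (h2 : (k : ℝ) * 0.71 ≤ z + 1) (hk : 0 < k) :
    ⌊(k : ℝ) * gam⌋ = z := by
  have hl := gam_lb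
  have hu := gam_ub
  have : (0 : ℝ) < k := by exact_mod_cast hk
  rw [Int.floor_eq_iff]; constructor <;> nlinarith

lemma Q0 : Q 0 = 0 := by simp [Q]
lemma Q1 : Q 1 = 0 := fl 1 0 (by norm_num) (by norm_num) (by norm_num)
lemma Q2 : Q 2 = 0 := fl 1 0 (by norm_num) (by norm_num) (by norm_num)
lemma Q3 : Q 3 = 1 := fl 2 1 (by norm_num) (by norm_num) (by norm_num)
lemma Q4 : Q 4 = 1 := fl 2 1 (by norm_num) (by norm_num) (by norm_num)
lemma Q5 : Q 5 = 2 := fl 3 2 (by norm_num) (by norm_num) (by norm_num)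
lemma Q6 : Q 6 = 2 := fl 3 2 (by norm_num) (by norm_num) (by norm_num)
lemma Q7 : Q 7 = 2 := fl 4 2 (by norm_num) (by norm_num) (by norm_num)
lemma Q8 : Q 8 = 2 := fl 4 2 (by norm_num) (by norm_num) (by norm_num)

lemma x0 : xw 0 = 0 := by simp [xw, Q0, Q1]
lemma x1 : xw 1 = 0 := by simp [xw, Q1, Q2]
lemma x2 : xw 2 = 1 := by simp [xw, Q2, Q3]
lemma x3 : xw 3 = 0 := by simp [xw, Q3, Q4]
lemma x4 : xw 4 = 1 := by simp [xw, Q4, Q5]
lemma x5 : xw 5 = 0 := by simp [xw, Q5, Q6]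
lemma x6 : xw 6 = 0 := by simp [xw, Q6, Q7]
lemma x7 : xw 7 = 0 := by simp [xw, Q7, Q8]

lemma not_sturmian_xw : ¬ Sturmian xw := by
  rintro ⟨-, h⟩
  have h3 := h 3
  let S : Finset (Fin 3 → Fin 2) := {![0, 0, 1], ![0, 1, 0], ![1, 0, 1], ![1, 0, 0], ![0, 0, 0]}
  have hS : S.card = 5 := by decide
  have hsub : (S : Set (Fin 3 → Fin 2)) ⊆ factors xw 3 := by
    intro w hw
    simp only [S, Finset.coe_insert, Finset.coe_singleton, Set.mem_insert_iff,
      Set.mem_singleton_iff] at hw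
    rcases hw with rfl | rfl | rfl | rfl | rfl
    · exact ⟨0, fun j => by fin_cases j <;> simp [x0, x1, x2]⟩
    · exact ⟨1, fun j => by fin_cases j <;> simp [x1, x2, x3]⟩
    · exact ⟨2, fun j => by fin_cases j <;> simp [x2, x3, x4]⟩
    · exact ⟨4, fun j => by fin_cases j <;> simp [x4, x5, x6]⟩
    · exact ⟨5, fun j => by fin_cases j <;> simp [x5, x6, x7]⟩
  have := Set.ncard_le_ncard hsub (Set.toFinite _)
  rw [Set.ncard_coe_finset, hS, h3] at this
  omega

/-! ### Counting the blocks of the abelian closure -/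

lemma closure_even {y : ℕ → Fin 2} (hy : y ∈ abelianClosure xw) (i m : ℕ) :
    |((pre y (i + 2 * m) - pre y i : ℤ) : ℝ) - m * gam| < 1 := by
  obtain ⟨u, ⟨k, hk⟩, hu⟩ := hy (2 * m) (fun j => y (i + j)) ⟨i, fun _ => rfl⟩
  have a := ones_eq y i (fun j : Fin (2 * m) => y (i + j)) (fun _ => rfl)
  have b := ones_eq xw k u hk
  rw [← a, hu, b, pre_xw, pre_xw]
  exact Q_even k m

noncomputable def F (k0 k : ℕ) : ℤ := ⌊((k : ℝ) - k0) * gam⌋ - ⌊(-(k0 : ℝ)) * gam⌋

lemma mech (E : ℕ → ℤ) (h0 : E 0 = 0)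
    (h : ∀ a m : ℕ, |((E (a + m) - E a : ℤ) : ℝ) - m * gam| < 1) (N : ℕ) :
    ∃ k0 : Fin (N + 1), ∀ k ≤ N, E k = F k0 k := by
  obtain ⟨k0, hk0, hmin⟩ := Finset.exists_min_image (Finset.range (N + 1))
    (fun k => (k : ℝ) * gam - E k) ⟨0, by simp⟩
  have hk0' : k0 < N + 1 := Finset.mem_range.1 hk0
  have key : ∀ k ≤ N, ⌊((k : ℝ) - k0) * gam⌋ = E k - E k0 := by
    intro k hk
    have m1 := hmin k (Finset.mem_range.2 (by omega))
    rw [Int.floor_eq_iff]
    constructor
    · push_cast; linarith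
    · rcases le_total k0 k with hle | hle
      · obtain ⟨m, rfl⟩ := Nat.exists_eq_add_of_le hle
        have := (abs_lt.1 (h k0 m)).1
        push_cast at this ⊢; linarith
      · obtain ⟨m, rfl⟩ := Nat.exists_eq_add_of_le hle
        have := (abs_lt.1 (h k m)).2
        push_cast at this ⊢; linarith
  refine ⟨⟨k0, hk0'⟩, fun k hk => ?_⟩
  have a := key k hk
  have b := key 0 (by omega)
  simp only [Nat.cast_zero, zero_sub] at b
  simp only [F]
  rw [a, b, h0]; ring

noncomputable def R (c : Fin 2) (k0 k1 n : ℕ) : ℤ :=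
  if n % 2 = 0 then F k0 (n / 2) else val c + F k1 (n / 2)

noncomputable def G (N : ℕ) (t : Fin 2 × Fin (N + 1) × Fin (N + 1)) : Fin N → Fin 2 :=
  fun j => if R t.1 t.2.1 t.2.2 (j + 1) - R t.1 t.2.1 t.2.2 j = 1 then 1 else 0

lemma val_inj (a : Fin 2) : (if val a = 1 then (1 : Fin 2) else 0) = a := by
  fin_cases a <;> simp [val]

lemma blocks_subset (N : ℕ) : blocks (abelianClosure xw) N ⊆ Set.range (G N) := by
  rintro w ⟨y, hy, i, hi⟩
  obtain ⟨k0, hk0⟩ := mech (fun k => pre y (i + 2 * k) - pre y i) (by simp) (fun a m => by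
    have := closure_even hy (i + 2 * a) m
    have e : i + 2 * a + 2 * m = i + 2 * (a + m) := by ring
    rw [e] at this
    convert this using 4; ring) N
  obtain ⟨k1, hk1⟩ := mech (fun k => pre y (i + 1 + 2 * k) - pre y (i + 1)) (by simp) (fun a m => by
    have := closure_even hy (i + 1 + 2 * a) m
    have e : i + 1 + 2 * a + 2 * m = i + 1 + 2 * (a + m) := by ring
    rw [e] at this
    convert this using 4; ring) N
  have hR : ∀ n ≤ N, R (y i) k0 k1 n = pre y (i + n) - pre y i := by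
    intro n hn
    rcases Nat.even_or_odd' n with ⟨k, rfl | rfl⟩
    · have e1 : 2 * k % 2 = 0 := by omega
      have e2 : 2 * k / 2 = k := by omega
      simp only [R, e1, e2, if_true]
      exact (hk0 k (by omega)).symm
    · have e1 : ¬ ((2 * k + 1) % 2 = 0) := by omega
      have e2 : (2 * k + 1) / 2 = k := by omega
      simp only [R, e1, e2, if_false]
      rw [← hk1 k (by omega), pre_succ]
      have : i + 1 + 2 * k = i + (2 * k + 1) := by ring
      rw [this]; ring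
  refine ⟨(y i, k0, k1), funext fun j => ?_⟩
  have hj := j.2
  simp only [G]
  rw [hR _ (by omega), hR _ (by omega), hi j, ← add_assoc, pre_succ]
  have : pre y (i + j) + val (y (i + j)) - pre y i - (pre y (i + j) - pre y i) = val (y (i + j)) := by
    ring
  rw [this, val_inj]

lemma blocks_ncard (N : ℕ) : (blocks (abelianClosure xw) N).ncard ≤ 2 * (N + 1) ^ 2 := by
  refine (Set.ncard_le_ncard (blocks_subset N) (Set.toFinite _)).trans ?_
  rw [← Set.image_univ]
  refine (Set.ncard_image_le (Set.toFinite _)).trans ?_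
  rw [Set.ncard_univ, Nat.card_eq_fintype_card]
  simp [sq]

lemma tendsto_bound :
    Tendsto (fun n : ℕ => Real.log ((2 * (n + 1) ^ 2 : ℕ) : ℝ) / n) atTop (𝓝 0) := by
  have h1 : Tendsto (fun n : ℕ => Real.log 2 / (n : ℝ)) atTop (𝓝 0) :=
    tendsto_const_div_atTop_nhds_zero_nat _
  have h2 : Tendsto (fun x : ℝ => Real.log x / (x - 1)) atTop (𝓝 0) := by
    simpa [sub_eq_add_neg] using Real.tendsto_pow_log_div_mul_add_atTop 1 (-1) 1 one_ne_zero
  have h3 : Tendsto (fun n : ℕ => (n : ℝ) + 1) atTop atTop :=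
    tendsto_atTop_add_const_right _ _ tendsto_natCast_atTop_atTop
  have h4 := (h2.comp h3).const_mul 2
  have h5 := h1.add h4
  simp only [mul_zero, add_zero] at h5
  refine h5.congr fun n => ?_
  have hn : (0 : ℝ) < n + 1 := by positivity
  simp only [Function.comp, add_sub_cancel_right]
  push_cast
  rw [Real.log_mul (by norm_num) (by positivity), Real.log_pow]
  push_cast; ring

theorem result : ∃ x : ℕ → Fin 2, UniformlyRecurrent x ∧ Aperiodic x ∧ ¬ Sturmian x ∧
    Tendsto (fun n : ℕ => Real.log ((blocks (abelianClosure x) n).ncard : ℝ) / n) atTop (𝓝 0) := by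
  refine ⟨xw, uniformlyRecurrent_xw, aperiodic_xw, not_sturmian_xw, ?_⟩
  refine squeeze_zero (fun n => div_nonneg (Real.log_natCast_nonneg _) (Nat.cast_nonneg _))
    (fun n => ?_) tendsto_bound
  refine div_le_div_of_nonneg_right ?_ (Nat.cast_nonneg _)
  rcases Nat.eq_zero_or_pos (blocks (abelianClosure xw) n).ncard with h0 | hpos
  · rw [h0, Nat.cast_zero, Real.log_zero]; exact Real.log_natCast_nonneg _
  · exact Real.log_le_log (by exact_mod_cast hpos) (by exact_mod_cast blocks_ncard n)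

end Pool.Agent.Results.MP_1706f7_co.ZeroEntropy
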